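import Mathlib

namespace Pool.Agent.H.MP_64e6b8_an

open Filter Topology

universe u v

section defs

variable {X : Type u} [NormedAddCommGroup X] [NormedSpace ℝ X]

/-- The numerical range `V(T) = {f (T x) : ‖x‖ = ‖f‖ = f x = 1}`. -/
def numRange (T : X →L[ℝ] X) : Set ℝ :=
  {r | ∃ (x : X) (f : StrongDual ℝ X), ‖x‖ = 1 ∧ ‖f‖ = 1 ∧ f x = 1 ∧ r = f (T x)}

/-- The numerical radius `v(T) = sup {|r| : r ∈ V(T)}`. -/
noncomputable def numRadius (T : X →L[ℝ] X) : ℝ := sSup ((fun r => |r|) '' numRange T)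

/-- The numerical index `n(X) = inf {v(T) : ‖T‖ = 1}` of a real normed space. -/
noncomputable def numIndex (X : Type u) [NormedAddCommGroup X] [NormedSpace ℝ X] : ℝ :=
  sInf {r | ∃ T : X →L[ℝ] X, ‖T‖ = 1 ∧ r = numRadius T}

end defs

section general

variable {X : Type u} [NormedAddCommGroup X] [NormedSpace ℝ X]

lemma rad_nonneg (T : X →L[ℝ] X) : 0 ≤ numRadius T :=
  Real.sSup_nonneg (by rintro _ ⟨r, -, rfl⟩; exact abs_nonneg r)

lemma range_le (T : X →L[ℝ] X) {r : ℝ} (hr : r ∈ numRange T) : |r| ≤ ‖T‖ := by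
  obtain ⟨x, f, hx, hf, -, rfl⟩ := hr
  have h1 := f.le_opNorm (T x)
  have h2 := T.le_opNorm x
  rw [hf, one_mul] at h1
  rw [hx, mul_one] at h2
  exact h1.trans h2

lemma index_zero (T : X →L[ℝ] X) (hT : T ≠ 0) (C : ℝ)
    (h : ∀ t : ℝ, |t| ≤ 1 → ‖1 + t • T‖ ≤ 1 + C * t ^ 2) : numIndex X = 0 := by
  have key : ∀ (x : X) (f : StrongDual ℝ X), ‖x‖ = 1 → ‖f‖ = 1 → f x = 1 → f (T x) = 0 := by
    intro x f hx hf hfx
    have h1 : ∀ t : ℝ, |t| ≤ 1 → t * f (T x) ≤ C * t ^ 2 := by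
      intro t ht
      have h2 := range_le (1 + t • T) ⟨x, f, hx, hf, hfx, rfl⟩
      have h3 := (le_abs_self _).trans (h2.trans (h t ht))
      simp only [add_apply, one_apply_eq_self, smul_apply, map_add, map_smul, hfx,
        smul_eq_mul] at h3
      linarith
    by_contra hne
    set a := f (T x)
    have hC : 0 < |C| + |a| + 1 := by positivity
    have h2 := h1 (a / (|C| + |a| + 1)) (by
      rw [abs_div, abs_of_pos hC, div_le_one hC]; linarith [abs_nonneg C])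
    have h3 : C * (a / (|C| + |a| + 1)) ^ 2 ≤ |C| * (a / (|C| + |a| + 1)) ^ 2 :=
      mul_le_mul_of_nonneg_right (le_abs_self C) (sq_nonneg _)
    have h4 : a / (|C| + |a| + 1) * a = (|C| + |a| + 1) * (a / (|C| + |a| + 1)) ^ 2 := by
      field_simp
    have h5 : 0 < (a / (|C| + |a| + 1)) ^ 2 := by positivity
    nlinarith [mul_nonneg (abs_nonneg a) h5.le]
  have hn : ‖T‖ ≠ 0 := norm_ne_zero_iff.2 hT
  refine IsLeast.csInf_eq ⟨⟨‖T‖⁻¹ • T, by rw [norm_smul, norm_inv, norm_norm, inv_mul_cancel₀ hn],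
    le_antisymm (rad_nonneg _) (Real.sSup_le ?_ le_rfl)⟩, ?_⟩
  · rintro _ ⟨_, ⟨x, f, hx, hf, hfx, rfl⟩, rfl⟩
    simp [key x f hx hf hfx]
  · rintro _ ⟨S, -, rfl⟩
    exact rad_nonneg S

lemma index_one [Nontrivial X]
    (h : ∀ T : X →L[ℝ] X, 1 + ‖T‖ ≤ max ‖1 + T‖ ‖1 - T‖) : numIndex X = 1 := by
  have key : ∀ T : X →L[ℝ] X, ‖T‖ = 1 → numRadius T = 1 := by
    intro T hT
    have hle : numRadius T ≤ 1 :=
      Real.sSup_le (by rintro _ ⟨r, hr, rfl⟩; exact hT ▸ range_le T hr) zero_le_one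
    refine le_antisymm hle ?_
    set μ := numRadius T with hμ
    have hμ0 : 0 ≤ μ := rad_nonneg T
    have h1 : ∀ (t : ℝ) (z : X), (1 - |t| * μ) * ‖z‖ ≤ ‖z - t • T z‖ := by
      intro t z
      by_cases hz : ‖z‖ = 0
      · simp [hz]
      obtain ⟨f, hf, hfz⟩ := exists_dual_vector ℝ z hz
      have hz' : 0 < ‖z‖ := lt_of_le_of_ne (norm_nonneg _) (Ne.symm hz)
      have h2 : |f (T (‖z‖⁻¹ • z))| ≤ μ := by
        refine le_csSup ⟨‖T‖, by rintro _ ⟨r, hr, rfl⟩; exact range_le T hr⟩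
          ⟨_, ⟨‖z‖⁻¹ • z, f, ?_, hf, ?_, rfl⟩, rfl⟩
        · rw [norm_smul, norm_inv, norm_norm, inv_mul_cancel₀ hz]
        · rw [map_smul, hfz]; exact inv_mul_cancel₀ hz
      rw [map_smul, map_smul, smul_eq_mul, abs_mul, abs_inv, abs_norm,
        inv_mul_le_iff₀ hz'] at h2
      have h3 := f.le_opNorm (z - t • T z)
      rw [hf, one_mul, map_sub, map_smul, hfz, smul_eq_mul] at h3
      have h4 := (le_abs_self _).trans h3
      have h5 : t * f (T z) ≤ |t| * (‖z‖ * μ) :=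
        (le_abs_self _).trans (by rw [abs_mul]; gcongr)
      simp only [RCLike.ofReal_real_eq_id, id] at h4
      linarith
    have h2 : ∀ t : ℝ, |t| < 1 → (1 - |t| * μ) * ‖1 + t • T‖ ≤ 1 + t ^ 2 := by
      intro t ht
      have hp : 0 < 1 - |t| * μ := by nlinarith [abs_nonneg t]
      rw [← le_div_iff₀' hp]
      refine ContinuousLinearMap.opNorm_le_bound _ (by positivity) fun y => ?_
      rw [div_mul_eq_mul_div, le_div_iff₀' hp]
      refine (h1 t _).trans ?_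
      have e : (1 + t • T) y - t • T ((1 + t • T) y) = y - t ^ 2 • T (T y) := by
        simp only [add_apply, one_apply_eq_self, smul_apply, map_add, map_smul]; module
      have h3 : ‖T (T y)‖ ≤ ‖y‖ := by
        have a1 := T.le_opNorm (T y)
        have a2 := T.le_opNorm y
        rw [hT, one_mul] at a1 a2
        linarith
      rw [e]
      refine (norm_sub_le _ _).trans ?_
      rw [norm_smul, Real.norm_of_nonneg (sq_nonneg t)]
      nlinarith [sq_nonneg t]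
    by_contra hlt
    push Not at hlt
    set t := (1 - μ) / 4 with ht
    have t0 : 0 < t := by rw [ht]; linarith
    have t1 : t < 1 := by rw [ht]; linarith
    have h3 := h (t • T)
    rw [norm_smul, hT, mul_one, Real.norm_of_nonneg t0.le] at h3
    have h4 := h2 t (by rwa [abs_of_pos t0])
    have h5 := h2 (-t) (by rwa [abs_neg, abs_of_pos t0])
    rw [abs_neg, neg_smul, ← sub_eq_add_neg, neg_sq] at h5
    rw [abs_of_pos t0] at h4 h5
    have hp : 0 < 1 - t * μ := by nlinarith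
    have h6 : (1 - t * μ) * (1 + t) ≤ 1 + t ^ 2 := by
      rcases le_max_iff.1 h3 with h7 | h7
      · exact (mul_le_mul_of_nonneg_left h7 hp.le).trans h4
      · exact (mul_le_mul_of_nonneg_left h7 hp.le).trans h5
    have h8 : t * (1 - μ) ≤ t * (t * (1 + μ)) := by nlinarith
    have h9 := le_of_mul_le_mul_left h8 t0
    nlinarith
  have : {r | ∃ T : X →L[ℝ] X, ‖T‖ = 1 ∧ r = numRadius T} = {1} := by
    ext r
    constructor
    · rintro ⟨T, hT, rfl⟩; exact key T hT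
    · rintro rfl; exact ⟨1, norm_one, (key 1 norm_one).symm⟩
  rw [numIndex, this, csInf_singleton]

/-- Alternative Daugavet property for function algebras. -/
lemma adp [Nontrivial X] {K : Type v} (ρ : K → X →ₗ[ℝ] ℝ) (mul : X → X → X)
    (hmul : ∀ k a b, ρ k (mul a b) = ρ k a * ρ k b) (hle : ∀ k a, |ρ k a| ≤ ‖a‖)
    (hat : ∀ a, ∃ k, |ρ k a| = ‖a‖) (T : X →L[ℝ] X) : 1 + ‖T‖ ≤ max ‖1 + T‖ ‖1 - T‖ := by
  have hn : ∀ (a : X) (r : ℝ), (∀ k, |ρ k a| ≤ r) → ‖a‖ ≤ r := fun a r h => by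
    obtain ⟨k, hk⟩ := hat a; exact hk ▸ h k
  by_cases hT : T = 0
  · simp [hT]
  have hT0 : 0 < ‖T‖ := norm_pos_iff.2 hT
  refine le_of_forall_pos_le_add fun η hη => ?_
  obtain ⟨ε, e0, e1, e2⟩ : ∃ ε : ℝ, 0 < ε ∧ ε ≤ 1 / 2 ∧ 2 * ‖T‖ * ε ≤ η := by
    refine ⟨min (1 / 2) (η / (2 * ‖T‖)), by positivity, min_le_left _ _, ?_⟩
    have := min_le_right (1 / 2 : ℝ) (η / (2 * ‖T‖))
    rwa [le_div_iff₀' (by positivity)] at this
  obtain ⟨x, hx, hb⟩ := T.exists_lt_apply_of_lt_opNorm (r := ‖T‖ * (1 - ε)) (by nlinarith)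
  have hb0 : 0 < ‖T x‖ := lt_of_le_of_lt (by nlinarith) hb
  obtain ⟨k0, hk0⟩ := hat (T x)
  set c := ρ k0 x with hc
  have hxk : ∀ k, |ρ k x| ≤ 1 := fun k => (hle k x).trans hx.le
  have hφ : ∀ n : ℕ, ∃ φ : X, ∀ k,
      ρ k φ = (ρ k (T x) / ‖T x‖) ^ 2 * (1 - (ρ k x - c) ^ 2 / 4) ^ n := by
    intro n
    induction n with
    | zero =>
      refine ⟨(‖T x‖ ^ 2)⁻¹ • mul (T x) (T x), fun k => ?_⟩
      rw [map_smul, hmul, smul_eq_mul]; field_simp
    | succ n ih =>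
      obtain ⟨φ, h⟩ := ih
      refine ⟨φ - (1 / 4 : ℝ) • (mul x (mul x φ) - (2 * c) • mul x φ + c ^ 2 • φ), fun k => ?_⟩
      simp only [map_sub, map_add, map_smul, hmul, smul_eq_mul, h]; ring
  obtain ⟨n, hn'⟩ := exists_pow_lt_of_lt_one (half_pos e0) (by nlinarith : 1 - ε ^ 2 / 4 < 1)
  obtain ⟨φ, h⟩ := hφ n
  have hu : ∀ k, (ρ k x - c) ^ 2 ≤ 4 := fun k => by
    have := abs_le.1 (hxk k); have := abs_le.1 (hxk k0); nlinarith
  have hq : ∀ k, (ρ k (T x) / ‖T x‖) ^ 2 ≤ 1 := fun k => by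
    rw [div_pow, div_le_one (by positivity), ← sq_abs]
    exact pow_le_pow_left₀ (abs_nonneg _) (hle k _) 2
  have hw0 : ∀ k, 0 ≤ (1 - (ρ k x - c) ^ 2 / 4) ^ n := fun k => pow_nonneg (by linarith [hu k]) n
  have hw1 : ∀ k, (1 - (ρ k x - c) ^ 2 / 4) ^ n ≤ 1 := fun k =>
    pow_le_one₀ (by linarith [hu k]) (by nlinarith [sq_nonneg (ρ k x - c)])
  have p0 : ∀ k, 0 ≤ ρ k φ := fun k => by rw [h]; exact mul_nonneg (sq_nonneg _) (hw0 k)
  have p1 : ∀ k, ρ k φ ≤ (1 - (ρ k x - c) ^ 2 / 4) ^ n := fun k => by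
    rw [h]; nlinarith [hq k, hw0 k]
  have pk : ρ k0 φ = 1 := by
    rw [h, div_pow, ← sq_abs, hk0]; simp [hc, hb0.ne']
  have hsm : ‖mul x φ - c • φ‖ ≤ ε := by
    refine hn _ _ fun k => ?_
    rw [map_sub, map_smul, hmul, smul_eq_mul, ← sub_mul, abs_mul, abs_of_nonneg (p0 k)]
    by_cases hk : |ρ k x - c| ≤ ε
    · nlinarith [p0 k, p1 k, hw1 k, abs_nonneg (ρ k x - c)]
    · push Not at hk
      have a1 : ε ^ 2 ≤ (ρ k x - c) ^ 2 := by
        rw [← sq_abs (ρ k x - c)]; exact pow_le_pow_left₀ e0.le hk.le 2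
      have a2 : (1 - (ρ k x - c) ^ 2 / 4) ^ n ≤ (1 - ε ^ 2 / 4) ^ n :=
        pow_le_pow_left₀ (by linarith [hu k]) (by linarith) n
      have a3 : |ρ k x - c| ≤ 2 := by
        have := abs_le.1 (hxk k); have := abs_le.1 (hxk k0); rw [abs_le]; constructor <;> linarith
      nlinarith [p0 k, p1 k, abs_nonneg (ρ k x - c)]
  have fin : ∀ s : ℝ, s = 1 ∨ s = -1 →
      1 + |ρ k0 (T (x - mul x φ + s • φ))| ≤ max ‖1 + T‖ ‖1 - T‖ := by
    intro s hs
    set y := x - mul x φ + s • φ with hy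
    have y1 : ‖y‖ ≤ 1 := by
      refine hn _ _ fun k => ?_
      have := abs_le.1 (hxk k)
      have := p0 k; have := (p1 k).trans (hw1 k)
      rw [hy, map_add, map_sub, map_smul, hmul, smul_eq_mul, abs_le]
      rcases hs with rfl | rfl <;> constructor <;> nlinarith
    have y2 : ρ k0 y = s := by
      rw [hy, map_add, map_sub, map_smul, hmul, smul_eq_mul, pk]; ring
    have b1 := abs_le.1 ((hle k0 _).trans ((1 + T).le_of_opNorm_le_of_le (le_max_left _ ‖1 - T‖) y1))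
    have b2 := abs_le.1 ((hle k0 _).trans ((1 - T).le_of_opNorm_le_of_le (le_max_right ‖1 + T‖ _) y1))
    simp only [add_apply, sub_apply, one_apply_eq_self, map_add, map_sub, y2, mul_one] at b1 b2
    rcases hs with rfl | rfl <;> rcases abs_cases (ρ k0 (T y)) with h | h <;> linarith [b1.1, b1.2, b2.1, b2.2, h.1]
  have f1 := fin 1 (Or.inl rfl)
  have f2 := fin (-1) (Or.inr rfl)
  have dec : ρ k0 (T x) = (1 + c) / 2 * ρ k0 (T (x - mul x φ + (1 : ℝ) • φ))
      + (1 - c) / 2 * ρ k0 (T (x - mul x φ + (-1 : ℝ) • φ)) + ρ k0 (T (mul x φ - c • φ)) := by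
    simp only [map_add, map_sub, map_smul, smul_eq_mul]; ring
  have c1 := abs_le.1 (hxk k0)
  have g3 : |ρ k0 (T (mul x φ - c • φ))| ≤ ‖T‖ * ε :=
    (hle _ _).trans (T.le_of_opNorm_le_of_le le_rfl hsm)
  set M := max ‖1 + T‖ ‖1 - T‖
  set a1 := ρ k0 (T (x - mul x φ + (1 : ℝ) • φ))
  set a2 := ρ k0 (T (x - mul x φ + (-1 : ℝ) • φ))
  have g4 : ‖T x‖ ≤ (1 + c) / 2 * |a1| + (1 - c) / 2 * |a2| + ‖T‖ * ε := by
    rw [← hk0, dec]
    refine (abs_add_le _ _).trans (add_le_add ((abs_add_le _ _).trans ?_) g3)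
    rw [abs_mul, abs_mul, abs_of_nonneg (by linarith [c1.1] : 0 ≤ (1 + c) / 2),
      abs_of_nonneg (by linarith [c1.2] : 0 ≤ (1 - c) / 2)]
  have g5 := mul_le_mul_of_nonneg_left f1 (by linarith [c1.1] : 0 ≤ (1 + c) / 2)
  have g6 := mul_le_mul_of_nonneg_left f2 (by linarith [c1.2] : 0 ≤ (1 - c) / 2)
  nlinarith

end general

section predual

variable {X : Type u} [NormedAddCommGroup X] [NormedSpace ℝ X]
variable {E : Type v} [NormedAddCommGroup E] [NormedSpace ℝ E] (Φ : StrongDual ℝ X ≃ₗᵢ[ℝ] E)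

/-- `T` is the adjoint of `S` under the identification `Φ`. -/
def Adj (S : X →L[ℝ] X) (T : E →L[ℝ] E) : Prop := ∀ f x, Φ.symm (T (Φ f)) x = f (S x)

lemma Adj.norm_eq {S : X →L[ℝ] X} {T : E →L[ℝ] E} (h : Adj Φ S T) : ‖S‖ = ‖T‖ := by
  apply le_antisymm
  · refine ContinuousLinearMap.opNorm_le_bound _ (norm_nonneg _) fun x => ?_
    refine NormedSpace.norm_le_dual_bound ℝ _ (by positivity) fun f => ?_
    rw [← h]
    refine ((Φ.symm (T (Φ f))).le_opNorm x).trans ?_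
    rw [Φ.symm.norm_map]
    have := T.le_opNorm (Φ f)
    rw [Φ.norm_map] at this
    nlinarith [norm_nonneg x]
  · refine ContinuousLinearMap.opNorm_le_bound _ (norm_nonneg _) fun e => ?_
    rw [← Φ.symm.norm_map (T e)]
    refine ContinuousLinearMap.opNorm_le_bound _ (by positivity) fun x => ?_
    have := h (Φ.symm e) x
    rw [Φ.apply_symm_apply] at this
    rw [this]
    refine ((Φ.symm e).le_opNorm _).trans ?_
    rw [Φ.symm.norm_map]
    have := S.le_opNorm x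
    nlinarith [norm_nonneg e]

lemma Adj.one_add {S : X →L[ℝ] X} {T : E →L[ℝ] E} (h : Adj Φ S T) (t : ℝ) :
    Adj Φ (1 + t • S) (1 + t • T) := by
  intro f x
  simp [h f x]

lemma exists_adj (S : X →L[ℝ] X) : ∃ T, Adj Φ S T := by
  refine ⟨(Φ.toContinuousLinearEquiv : StrongDual ℝ X →L[ℝ] E).comp
    ((ContinuousLinearMap.precomp ℝ S).comp
      (Φ.symm.toContinuousLinearEquiv : E →L[ℝ] StrongDual ℝ X)), fun f x => ?_⟩
  simp

include Φ in
lemma predual_one [Nontrivial E] (h : ∀ T : E →L[ℝ] E, 1 + ‖T‖ ≤ max ‖1 + T‖ ‖1 - T‖) :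
    numIndex X = 1 := by
  haveI : Nontrivial X := by
    by_contra hX
    rw [not_nontrivial_iff_subsingleton] at hX
    obtain ⟨a, b, hab⟩ := exists_pair_ne E
    refine hab (Φ.symm.injective ?_)
    ext x
    rw [Subsingleton.elim x 0]; simp
  refine index_one fun S => ?_
  obtain ⟨T, hT⟩ := exists_adj Φ S
  have h1 := (hT.one_add Φ 1).norm_eq
  have h2 := (hT.one_add Φ (-1)).norm_eq
  rw [one_smul, one_smul] at h1
  rw [neg_one_smul, neg_one_smul, ← sub_eq_add_neg, ← sub_eq_add_neg] at h2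
  rw [h1, h2, hT.norm_eq]
  exact h T

/-- Weak-star convergence along an ultrafilter. -/
def WL {α : Type*} (l : Ultrafilter α) (u : α → E) (y : E) : Prop :=
  ∀ x : X, Tendsto (fun i => Φ.symm (u i) x) l (𝓝 (Φ.symm y x))

lemma WL.lsc {α : Type*} {l : Ultrafilter α} {u : α → E} {y : E} (h : WL Φ l u y) {C : ℝ}
    (hC : ∀ i, ‖u i‖ ≤ C) : ‖y‖ ≤ C := by
  obtain ⟨i0⟩ : Nonempty α := l.neBot.nonempty
  rw [← Φ.symm.norm_map]
  refine ContinuousLinearMap.opNorm_le_bound _ ((norm_nonneg _).trans (hC i0)) fun x => ?_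
  refine le_of_tendsto' (h x).norm fun i => ((Φ.symm (u i)).le_opNorm x).trans ?_
  rw [Φ.symm.norm_map]
  exact mul_le_mul_of_nonneg_right (hC i) (norm_nonneg _)

lemma WL.ex {α : Type*} (l : Ultrafilter α) (u : α → E) {C : ℝ} (hC : ∀ i, ‖u i‖ ≤ C) :
    ∃ y, WL Φ l u y := by
  obtain ⟨g, -, hg⟩ := (WeakDual.isCompact_closedBall (0 : StrongDual ℝ X) C).ultrafilter_le_nhds
    (l.map fun i => StrongDual.toWeakDual (Φ.symm (u i))) (by
      rw [le_principal_iff, Ultrafilter.mem_coe, Ultrafilter.mem_map]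
      exact univ_mem' fun i => by simpa using hC i)
  refine ⟨Φ (WeakDual.toStrongDual g), fun x => ?_⟩
  rw [Φ.symm_apply_apply]
  exact ((WeakDual.eval_continuous x).tendsto g).comp hg

lemma mem_range_of_approx [CompleteSpace X] (J : X →ₗᵢ[ℝ] E) (φ : E)
    (h : ∀ ε, 0 < ε → ∃ z, ‖φ - J z‖ < ε) : ∃ z, J z = φ := by
  have hc : IsClosed (Set.range J) := J.isometry.isClosedEmbedding.isClosed_range
  show φ ∈ Set.range J
  rw [← hc.closure_eq, Metric.mem_closure_iff]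
  intro ε hε
  obtain ⟨z, hz⟩ := h ε hε
  exact ⟨J z, ⟨z, rfl⟩, by rwa [dist_eq_norm]⟩

lemma from_predual [CompleteSpace X] (φ : StrongDual ℝ (StrongDual ℝ X))
    (h : ∀ ε, 0 < ε → ∃ F : Finset X, ∀ g : StrongDual ℝ X, ‖g‖ ≤ 1 → (∀ x ∈ F, g x = 0) →
      |φ g| ≤ ε) : ∃ z : X, ∀ g, φ g = g z := by
  set J := NormedSpace.inclusionInDoubleDualLi ℝ (E := X) with hJ
  suffices ∃ z, J z = φ by
    obtain ⟨z, rfl⟩ := this
    exact ⟨z, fun g => rfl⟩
  refine mem_range_of_approx (E := StrongDual ℝ (StrongDual ℝ X)) J φ fun ε hε => ?_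
  obtain ⟨F, hF⟩ := h (ε / 2) (half_pos hε)
  set L : F → StrongDual ℝ X →ₗ[ℝ] ℝ := fun x => (J x).toLinearMap with hL
  set K : Submodule ℝ (StrongDual ℝ X) := ⨅ x, LinearMap.ker (L x) with hK
  obtain ⟨ψ, h1, h2⟩ := exists_extension_norm_eq K (φ.comp K.subtypeL)
  have h3 : ‖ψ‖ ≤ ε / 2 := by
    rw [h2]
    refine ContinuousLinearMap.opNorm_le_of_unit_norm (half_pos hε).le fun g hg => ?_
    refine hF g (le_of_eq hg) fun x hx => ?_
    exact (Submodule.mem_iInf _).1 g.2 ⟨x, hx⟩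
  have h4 : (φ - ψ).toLinearMap ∈ Submodule.span ℝ (Set.range L) := by
    refine mem_span_of_iInf_ker_le_ker fun g hg => ?_
    have := h1 ⟨g, hg⟩
    simp only [ContinuousLinearMap.comp_apply, Submodule.subtypeL_apply] at this
    simp [this]
  obtain ⟨c, hc⟩ := (Submodule.mem_span_range_iff_exists_fun ℝ).1 h4
  refine ⟨∑ x : F, c x • (x : X), ?_⟩
  have h5 : J (∑ x : F, c x • (x : X)) = φ - ψ := by
    ext g
    have := LinearMap.congr_fun hc g
    simp only [LinearMap.sum_apply, LinearMap.smul_apply, hL] at this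
    have e1 : ∀ y : X, J y g = g y := fun y => rfl
    simp only [ContinuousLinearMap.coe_coe, e1] at this
    rw [e1, map_sum, ← this]
    simp only [map_smul]
  have h6 : φ - (φ - ψ) = ψ := by ext g; simp
  rw [h5, h6]
  linarith

lemma exists_preadj [CompleteSpace X] (T : E →L[ℝ] E)
    (hT : ∀ (l : Ultrafilter (Finset X)) (u : Finset X → E), (∀ i, ‖u i‖ ≤ 1) → WL Φ l u 0 →
      WL Φ l (fun i => T (u i)) 0) : ∃ S, Adj Φ S T := by
  classical
  have key : ∀ x : X, ∃ z : X, ∀ g, Φ.symm (T (Φ g)) x = g z := by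
    intro x
    refine from_predual ((NormedSpace.inclusionInDoubleDualLi ℝ x).comp
      ((Φ.symm.toContinuousLinearEquiv : E →L[ℝ] StrongDual ℝ X).comp
        (T.comp (Φ.toContinuousLinearEquiv : StrongDual ℝ X →L[ℝ] E)))) fun ε hε => ?_
    by_contra hc
    push Not at hc
    choose g g1 g2 g3 using hc
    have h1 := hT (Ultrafilter.of atTop) (fun F => Φ (g F)) (fun F => by rw [Φ.norm_map]; exact g1 F)
      (fun w => by
        refine tendsto_const_nhds.congr' (Ultrafilter.of_le atTop ?_)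
        filter_upwards [eventually_ge_atTop {w}] with F hF
        simp [g2 F w (hF (Finset.mem_singleton_self w))]) x
    have h2 := ge_of_tendsto' h1.abs fun F => (g3 F).le
    simp at h2
    linarith
  choose s hs using key
  have hsep : ∀ a b : X, (∀ g : StrongDual ℝ X, g a = g b) → a = b := fun a b h =>
    (SeparatingDual.eq_iff_forall_dual_eq (R := ℝ)).2 h
  refine ⟨LinearMap.mkContinuous ⟨⟨s, fun a b => hsep _ _ fun g => ?_⟩,
    fun c a => hsep _ _ fun g => ?_⟩ ‖T‖ fun x => ?_, fun f x => hs x f⟩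
  · rw [map_add, ← hs, ← hs, ← hs, map_add]
  · simp only [RingHom.id_apply, map_smul, ← hs]
  · refine NormedSpace.norm_le_dual_bound ℝ _ (by positivity) fun f => ?_
    show ‖f (s x)‖ ≤ _
    rw [← hs]
    refine ((Φ.symm (T (Φ f))).le_opNorm x).trans ?_
    rw [Φ.symm.norm_map]
    have := T.le_opNorm (Φ f)
    rw [Φ.norm_map] at this
    nlinarith [norm_nonneg x]

lemma predual_zero [CompleteSpace X] (T : E →L[ℝ] E) (hT0 : T ≠ 0) (C : ℝ)
    (h : ∀ t : ℝ, |t| ≤ 1 → ‖1 + t • T‖ ≤ 1 + C * t ^ 2)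
    (hT : ∀ (l : Ultrafilter (Finset X)) (u : Finset X → E), (∀ i, ‖u i‖ ≤ 1) → WL Φ l u 0 →
      WL Φ l (fun i => T (u i)) 0) : numIndex X = 0 := by
  obtain ⟨S, hS⟩ := exists_preadj Φ T hT
  refine index_zero S (fun h0 => hT0 ?_) C fun t ht => ?_
  · rw [← norm_eq_zero, ← hS.norm_eq, h0, norm_zero]
  · rw [(hS.one_add Φ t).norm_eq]; exact h t ht

end predual

end Pool.Agent.H.MP_64e6b8_an
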