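import Mathlib

namespace Pool.Agent.H.MP_64e6b8_an

variable {B : Type*} [CStarAlgebra B] [PartialOrder B] [StarOrderedRing B]

/-- An abstract notion of limit of families with the properties of weak-star ultralimits. -/
structure LimSys (R : Submodule ℝ B) {α : Type*} (Lim : (α → B) → B → Prop) : Prop where
  add : ∀ {u v a b}, Lim u a → Lim v b → Lim (fun i => u i + v i) (a + b)
  smul : ∀ (c : ℝ) {u a}, Lim u a → Lim (fun i => c • u i) (c • a)
  const : ∀ {a}, a ∈ R → Lim (fun _ => a) a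
  mem : ∀ {u a}, Lim u a → a ∈ R ∧ ∀ i, u i ∈ R
  lsc : ∀ {u a C}, Lim u a → (∀ i, ‖u i‖ ≤ C) → ‖a‖ ≤ C
  ex : ∀ {u C}, (∀ i, u i ∈ R) → (∀ i, ‖u i‖ ≤ C) → ∃ a, Lim u a

omit [PartialOrder B] [StarOrderedRing B] in
lemma nsq (x : B) : ‖star x * x‖ = ‖x‖ ^ 2 := by rw [CStarRing.norm_star_mul_self, sq]

lemma nle {x y : B} {c : ℝ} (hc : 0 ≤ c) (h : star x * x ≤ c • (star y * y)) :
    ‖x‖ ^ 2 ≤ c * ‖y‖ ^ 2 := by
  have := CStarAlgebra.norm_le_norm_of_nonneg_of_le (star_mul_self_nonneg x) h
  rwa [norm_smul, nsq, nsq, Real.norm_of_nonneg hc] at this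

omit [PartialOrder B] [StarOrderedRing B] in
lemma expand (x w : B) (t : ℝ) : star (x + t • w) * (x + t • w)
    = star x * x + t • (star x * w + star w * x) + t ^ 2 • (star w * w) := by
  simp only [star_add, star_smul, star_trivial, add_mul, mul_add, smul_mul_assoc, mul_smul_comm]
  module

omit [PartialOrder B] [StarOrderedRing B] in
lemma skew_sq {k : B} (hk : star k = -k) (x : B) :
    star (x + k * x) * (x + k * x) = star x * x + star x * (star k * k) * x := by
  simp only [star_add, star_mul, hk]; noncomm_ring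

lemma skew_ge {k : B} (hk : star k = -k) (x : B) : ‖x‖ ≤ ‖x + k * x‖ := by
  have h : star x * x ≤ (1 : ℝ) • (star (x + k * x) * (x + k * x)) := by
    rw [one_smul, skew_sq hk]
    exact le_add_of_nonneg_right (star_left_conjugate_nonneg (star_mul_self_nonneg k) x)
  have := nle zero_le_one h
  rw [one_mul] at this
  exact le_of_pow_le_pow_left₀ two_ne_zero (norm_nonneg _) this

lemma skew_le {k : B} (hk : star k = -k) (x : B) :
    star (x + k * x) * (x + k * x) ≤ (1 + ‖k‖ ^ 2) • (star x * x) := by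
  rw [skew_sq hk, add_smul, one_smul, ← nsq k]
  exact add_le_add_right (CStarAlgebra.star_left_conjugate_le_norm_smul (.star_mul_self k)) _

lemma skew_le' {k : B} (hk : star k = -k) (x : B) : ‖x + k * x‖ ≤ (1 + ‖k‖ ^ 2) * ‖x‖ := by
  have h := nle (by positivity) (skew_le hk x)
  refine le_of_pow_le_pow_left₀ two_ne_zero (by positivity) (h.trans ?_)
  rw [mul_pow]
  exact mul_le_mul_of_nonneg_right (by nlinarith [sq_nonneg ‖k‖]) (sq_nonneg _)

lemma central {h s : B} (hh : star h = h) (hc : h * (h * s - s * h) = (h * s - s * h) * h) :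
    h * s = s * h := by
  nontriviality B
  set c := h * s - s * h with hcd
  have key : ∀ m : ℕ, ((m : ℝ) + 1) * ‖c‖ ≤ 2 * ‖s‖ * Real.exp (‖h‖ ^ 2) := by
    intro m
    set z : ℂ := (((m : ℝ) + 1)⁻¹ : ℝ) * Complex.I with hz
    have nz : ‖z‖ = ((m : ℝ) + 1)⁻¹ := by
      rw [hz, norm_mul, Complex.norm_I, Complex.norm_real, mul_one, Real.norm_of_nonneg]
      positivity
    have hj : star (z • h) = -(z • h) := by
      rw [star_smul, hh, ← neg_smul]; congr 1; simp [hz]
    set u := 1 + z • h with hu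
    have um : ∀ x, u * x = x + z • h * x := fun x => by rw [hu, add_mul, one_mul]
    have cu : c * u = u * c := by
      rw [hu, mul_add, add_mul, mul_one, one_mul, mul_smul_comm, smul_mul_assoc, hc]
    have d1 : u * s - s * u = z • c := by
      rw [hu, hcd, add_mul, mul_add, one_mul, mul_one, smul_mul_assoc, mul_smul_comm, smul_sub]
      abel
    have dn : ∀ n : ℕ, u ^ (n + 1) * s - s * u ^ (n + 1) = (((n : ℂ) + 1) * z) • (u ^ n * c) := by
      intro n
      induction n with
      | zero => simp [d1]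
      | succ n ih =>
        have : u ^ (n + 1 + 1) * s - s * u ^ (n + 1 + 1)
            = u ^ (n + 1) * (u * s - s * u) + (u ^ (n + 1) * s - s * u ^ (n + 1)) * u := by
          rw [pow_succ u (n + 1)]; noncomm_ring
        rw [this, ih, d1, smul_mul_assoc, mul_assoc (u ^ n), cu, ← mul_assoc (u ^ n), ← pow_succ,
          mul_smul_comm]
        push_cast; module
    have lo : ∀ n : ℕ, ‖c‖ ≤ ‖u ^ n * c‖ := by
      intro n
      induction n with
      | zero => simp
      | succ n ih => rw [pow_succ', mul_assoc, um]; exact ih.trans (skew_ge hj _)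
    have hi : ∀ n : ℕ, ‖u ^ n‖ ^ 2 ≤ Real.exp (n * ‖z • h‖ ^ 2) := by
      intro n
      induction n with
      | zero => simp
      | succ n ih =>
        rw [pow_succ' u, um]
        refine (nle (by positivity) (skew_le hj _)).trans ?_
        push_cast
        rw [add_mul (n : ℝ), one_mul, Real.exp_add, mul_comm]
        exact mul_le_mul ih (by linarith [Real.add_one_le_exp (‖z • h‖ ^ 2)]) (by positivity)
          (by positivity)
    have h1 := hi (m * m + 2 * m + 1)
    have e1 : ((m * m + 2 * m + 1 : ℕ) : ℝ) * ‖z • h‖ ^ 2 = ‖h‖ ^ 2 := by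
      rw [norm_smul, nz]; push_cast; field_simp; ring
    rw [e1] at h1
    have h2 : ‖u ^ (m * m + 2 * m + 1)‖ ≤ Real.exp (‖h‖ ^ 2) := by
      have := Real.one_le_exp (sq_nonneg ‖h‖)
      exact le_of_pow_le_pow_left₀ two_ne_zero (by positivity) (by nlinarith)
    have h3 := congrArg norm (dn (m * m + 2 * m))
    have e2 : ‖(((m * m + 2 * m : ℕ) : ℂ) + 1) * z‖ = (m : ℝ) + 1 := by
      have : (((m * m + 2 * m : ℕ) : ℂ) + 1) = ((((m : ℝ) + 1) ^ 2 : ℝ) : ℂ) := by push_cast; ring
      rw [norm_mul, nz, this, Complex.norm_real, Real.norm_of_nonneg (by positivity)]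
      field_simp
    rw [norm_smul, e2] at h3
    have h4 := norm_sub_le (u ^ (m * m + 2 * m + 1) * s) (s * u ^ (m * m + 2 * m + 1))
    have h5 := norm_mul_le (u ^ (m * m + 2 * m + 1)) s
    have h6 := norm_mul_le s (u ^ (m * m + 2 * m + 1))
    have h7 := mul_le_mul_of_nonneg_left (lo (m * m + 2 * m)) (by positivity : 0 ≤ (m : ℝ) + 1)
    have h8 := mul_le_mul_of_nonneg_left h2 (norm_nonneg s)
    nlinarith
  rw [← sub_eq_zero, ← hcd, ← norm_le_zero_iff]
  by_contra hne
  push Not at hne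
  obtain ⟨m, hm⟩ := exists_nat_gt (2 * ‖s‖ * Real.exp (‖h‖ ^ 2) / ‖c‖)
  rw [div_lt_iff₀ hne] at hm
  have := key m
  nlinarith

lemma cfc_conj {a : B} (ha : IsSelfAdjoint a) (f g : ℝ → ℝ) (hf : Continuous f)
    (hg : Continuous g) (h : ∀ t ∈ spectrum ℝ a, f t * f t ≤ g t) (y : B) :
    star (cfc f a * y) * (cfc f a * y) ≤ star y * cfc g a * y := by
  have h1 : star (cfc f a) = cfc f a := (cfc_predicate f a : IsSelfAdjoint _).star_eq
  have h2 : star (cfc f a * y) * (cfc f a * y) = star y * cfc (fun t => f t * f t) a * y := by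
    rw [cfc_mul f f a, star_mul, h1]; noncomm_ring
  rw [h2]
  exact star_left_conjugate_le_conjugate (cfc_mono h) y

variable {R : Submodule ℝ B} {α : Type*} {Lim : (α → B) → B → Prop}

namespace LimSys

lemma orth (S : LimSys R Lim) {v : α → B} {y w : B} {C η δ : ℝ} (h : Lim v y)
    (hC : ∀ i, ‖v i‖ ≤ C) (hw : w ∈ R) (hη0 : 0 ≤ η)
    (hη : ∀ i, ‖star (v i) * w + star w * v i‖ ≤ η) (hδ : 0 ≤ δ)
    (hd : δ • (star w * w) ≤ star y * w + star w * y) : δ * ‖w‖ ^ 2 ≤ η := by
  have key : ∀ t : ℝ, 0 < t → t * (δ * ‖w‖ ^ 2) ≤ C ^ 2 + t * η := by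
    intro t ht
    have h1 : ‖y + t • w‖ ≤ √(C ^ 2 + t * η + t ^ 2 * ‖w‖ ^ 2) := by
      refine S.lsc (S.add h (S.const (R.smul_mem t hw))) fun i => Real.le_sqrt_of_sq_le ?_
      rw [← nsq, expand]
      refine (norm_add₃_le).trans ?_
      rw [norm_smul, norm_smul, nsq, nsq, Real.norm_of_nonneg ht.le,
        Real.norm_of_nonneg (sq_nonneg t)]
      have := pow_le_pow_left₀ (norm_nonneg _) (hC i) 2
      have := mul_le_mul_of_nonneg_left (hη i) ht.le
      linarith
    have h2 := pow_le_pow_left₀ (norm_nonneg _) h1 2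
    rw [Real.sq_sqrt (by positivity)] at h2
    have h3 : (t * δ + t ^ 2) • (star w * w) ≤ star (y + t • w) * (y + t • w) := by
      rw [expand, add_smul, mul_smul]
      refine add_le_add_left ?_ _
      exact (smul_le_smul_of_nonneg_left hd ht.le).trans
        (le_add_of_nonneg_left (star_mul_self_nonneg y))
    have h4 := CStarAlgebra.norm_le_norm_of_nonneg_of_le
      (smul_nonneg (by positivity) (star_mul_self_nonneg w)) h3
    rw [norm_smul, nsq, nsq, Real.norm_of_nonneg (by positivity)] at h4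
    nlinarith
  by_contra hlt
  push Not at hlt
  have hp : 0 < δ * ‖w‖ ^ 2 - η := by linarith
  have h1 := key ((C ^ 2 + 1) / (δ * ‖w‖ ^ 2 - η)) (by positivity)
  have h2 : (C ^ 2 + 1) / (δ * ‖w‖ ^ 2 - η) * (δ * ‖w‖ ^ 2 - η) = C ^ 2 + 1 := by field_simp
  nlinarith

lemma orth0 (S : LimSys R Lim) {v : α → B} {y w : B} {C δ : ℝ} (h : Lim v y)
    (hC : ∀ i, ‖v i‖ ≤ C) (hw : w ∈ R) (hη : ∀ i, star (v i) * w + star w * v i = 0)
    (hδ : 0 < δ) (hd : δ • (star w * w) ≤ star y * w + star w * y) : w = 0 := by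
  have h1 := S.orth h hC hw le_rfl (fun i => by rw [hη, norm_zero]) hδ.le hd
  have h2 : ‖w‖ ^ 2 ≤ 0 := by
    by_contra hc
    push Not at hc
    nlinarith
  exact norm_eq_zero.1 (pow_eq_zero_iff two_ne_zero |>.1 (le_antisymm h2 (sq_nonneg _)))

lemma twist (S : LimSys R Lim) (hm : ∀ a ∈ R, ∀ b ∈ R, a * b ∈ R) {v : α → B} {y k : B} {C : ℝ}
    (h : Lim v y) (hC : ∀ i, ‖v i‖ ≤ C) (hkR : k ∈ R) (hk : star k = -k)
    (hη : ∀ i, star (v i) * (y + k * y) + star (y + k * y) * v i = 0) : y = 0 := by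
  have hy := (S.mem h).1
  have h1 := S.orth0 h hC (R.add_mem hy (hm _ hkR _ hy)) hη
    (by positivity : 0 < 2 / (1 + ‖k‖ ^ 2)) (by
      refine (smul_le_smul_of_nonneg_left (skew_le hk y) (by positivity)).trans (le_of_eq ?_)
      rw [smul_smul, div_mul_cancel₀ _ (by positivity), two_smul]
      simp only [star_add, star_mul, hk]; noncomm_ring)
  have h2 := skew_ge hk y
  rwa [h1, norm_zero, norm_le_zero_iff] at h2

lemma selfadj (S : LimSys R Lim) (hcl : IsClosed (R : Set B)) (hm : ∀ a ∈ R, ∀ b ∈ R, a * b ∈ R)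
    {a : B} (haR : a ∈ R) (ha : star a = a) {u : α → B} {C : ℝ} (hC0 : 0 ≤ C) (h : Lim u 0)
    (hC : ∀ i, ‖u i‖ ≤ C) : Lim (fun i => a * u i) 0 := by
  have ha' : IsSelfAdjoint a := ha
  rcases subsingleton_or_nontrivial B with hB | hB
  · exact (Subsingleton.elim _ _ : u = fun i => a * u i) ▸ h
  obtain ⟨y, hy⟩ := S.ex (u := fun i => a * u i) (C := ‖a‖ * C)
    (fun i => hm _ haR _ ((S.mem h).2 i))
    (fun i => (norm_mul_le _ _).trans (mul_le_mul_of_nonneg_left (hC i) (norm_nonneg _)))
  suffices y = 0 from this ▸ hy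
  let M : StarSubalgebra ℝ B :=
    { carrier := {m | ∀ x ∈ R, m * x ∈ R ∧ star m * x ∈ R}
      mul_mem' := fun {p q} hp hq x hx => ⟨by rw [mul_assoc]; exact (hp _ (hq x hx).1).1,
        by rw [star_mul, mul_assoc]; exact (hq _ (hp x hx).2).2⟩
      add_mem' := fun {p q} hp hq x hx => ⟨by rw [add_mul]; exact R.add_mem (hp x hx).1 (hq x hx).1,
        by rw [star_add, add_mul]; exact R.add_mem (hp x hx).2 (hq x hx).2⟩
      algebraMap_mem' := fun r x hx => by
        simp only [Algebra.algebraMap_eq_smul_one, star_smul, star_trivial, star_one,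
          smul_mul_assoc, one_mul, and_self]
        exact R.smul_mem r hx
      star_mem' := fun {p} hp x hx => ⟨(hp x hx).2, by rw [star_star]; exact (hp x hx).1⟩ }
  haveI hM : IsClosed (M : Set B) := by
    have : (M : Set B) = ⋂ x ∈ R, ((fun m => m * x) ⁻¹' R ∩ (fun m => star m * x) ⁻¹' R) := by
      ext m; simp only [Set.mem_iInter]; rfl
    rw [this]
    exact isClosed_biInter fun x _ => (hcl.preimage (by fun_prop)).inter (hcl.preimage (by fun_prop))
  have haM : a ∈ M := fun x hx => ⟨hm _ haR _ hx, by rw [ha]; exact hm _ haR _ hx⟩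
  have bump : ∀ (l ε : ℝ), 0 < ε →
      ‖cfc (fun t : ℝ => max 0 (1 - |t - l| / ε)) a * y‖ ≤ C * ε := by
    intro l ε hε
    set G : ℝ → ℝ := fun t => max 0 (1 - |t - l| / ε) with hG
    have Gc : Continuous G := by fun_prop
    have G0 : ∀ t, 0 ≤ G t := fun t => le_max_left _ _
    have G1 : ∀ t, G t ≤ 1 := fun t => max_le zero_le_one (by
      have : 0 ≤ |t - l| / ε := by positivity
      linarith)
    have G2 : ∀ t, (t - l) * G t * ((t - l) * G t) ≤ ε ^ 2 * (G t * G t) := by
      intro t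
      by_cases ht : |t - l| ≤ ε
      · have := pow_le_pow_left₀ (abs_nonneg _) ht 2
        rw [sq_abs] at this
        nlinarith [mul_self_nonneg (G t)]
      · have : G t = 0 := max_eq_left (by
          push Not at ht
          have := (one_le_div hε).2 ht.le
          linarith)
        simp [this]
    have sG : star (cfc G a) = cfc G a := (cfc_predicate G a : IsSelfAdjoint _).star_eq
    set w := cfc G a * y with hw
    have hwR : w ∈ R := ((cfc_mem (𝕜' := ℝ) G haM) y (S.mem hy).1).1
    have e1 : cfc (fun t => (t - l) * G t) a * y = a * w - l • w := by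
      rw [cfc_mul (fun t : ℝ => t - l) G a, cfc_sub (fun t : ℝ => t) (fun _ => l) a, cfc_id' ℝ a,
        cfc_const l a, Algebra.algebraMap_eq_smul_one, mul_assoc, sub_mul, smul_mul_assoc, one_mul]
    have n1 : ‖a * w - l • w‖ ≤ ε * ‖w‖ := by
      have h1 := cfc_conj ha' (fun t => (t - l) * G t) (fun t => ε ^ 2 * (G t * G t)) (by fun_prop)
        (by fun_prop) (fun t _ => G2 t) y
      rw [e1, cfc_const_mul (ε ^ 2) (fun t => G t * G t) a, cfc_mul G G a] at h1
      have h2 : star y * ε ^ 2 • (cfc G a * cfc G a) * y = ε ^ 2 • (star w * w) := by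
        rw [hw, star_mul, sG, mul_smul_comm, smul_mul_assoc]; congr 1; noncomm_ring
      rw [h2] at h1
      have h3 := nle (sq_nonneg ε) h1
      rw [← mul_pow] at h3
      exact le_of_pow_le_pow_left₀ two_ne_zero (by positivity) h3
    have hv := S.add hy (S.smul (-l) h)
    rw [smul_zero, add_zero] at hv
    have h1 := S.orth (C := ‖a‖ * C + |l| * C) (η := 2 * (C * (ε * ‖w‖))) (δ := 2) hv
      (fun i => (norm_add_le _ _).trans (add_le_add
        ((norm_mul_le _ _).trans (mul_le_mul_of_nonneg_left (hC i) (norm_nonneg _)))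
        (by rw [norm_smul, norm_neg]; exact mul_le_mul_of_nonneg_left (hC i) (abs_nonneg _))))
      hwR (by positivity) (fun i => by
        have e2 : star (a * u i + -l • u i) * w = star (u i) * (a * w - l • w) := by
          simp only [star_add, star_mul, ha, star_smul, star_trivial, add_mul, mul_sub,
            smul_mul_assoc, mul_smul_comm, mul_assoc]
          module
        have e3 : star w * (a * u i + -l • u i) = star (star (a * u i + -l • u i) * w) := by
          rw [star_mul (star _) w, star_star]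
        have b1 : ‖star (u i) * (a * w - l • w)‖ ≤ C * (ε * ‖w‖) :=
          (norm_mul_le _ _).trans (by
            rw [norm_star]; exact mul_le_mul (hC i) n1 (norm_nonneg _) hC0)
        rw [e3, e2]
        refine (norm_add_le _ _).trans ?_
        rw [norm_star]; linarith) zero_le_two (by
        have h1 := cfc_conj ha' G G Gc Gc (fun t _ => by nlinarith [G0 t, G1 t]) y
        rw [two_smul]
        refine add_le_add (h1.trans (le_of_eq ?_)) (h1.trans (le_of_eq ?_))
        · rw [hw, mul_assoc]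
        · rw [hw, star_mul, sG])
    rcases (norm_nonneg w).eq_or_lt with h0 | h0
    · rw [← h0]; positivity
    · nlinarith
  have est : ∀ N : ℕ, 0 < N → ‖y‖ ^ 2 ≤ 12 * (C * (‖a‖ + 1)) ^ 2 / N := by
    intro N hN
    have hN' : (1 : ℝ) ≤ N := by exact_mod_cast hN
    set ε : ℝ := (‖a‖ + 1) / N with hε
    have hε0 : 0 < ε := by positivity
    set G : ℤ → ℝ → ℝ := fun j t => max 0 (1 - |t - j * ε| / ε) with hG
    have Gc : ∀ j, Continuous (G j) := fun j => by simp only [hG]; fun_prop
    have cov : ∀ t ∈ spectrum ℝ a, (1 / 2 : ℝ) * (1 / 2)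
        ≤ ∑ j ∈ Finset.Icc (-(N : ℤ)) N, G j t * G j t := by
      intro t ht
      have t1 : |t| ≤ ‖a‖ := by
        have := spectrum.norm_le_norm_of_mem ht
        rwa [Real.norm_eq_abs] at this
      have r1 := abs_sub_round (t / ε)
      have t2 : |t / ε| < N := by
        rw [abs_div, abs_of_pos hε0, div_lt_iff₀ hε0, hε]; field_simp; linarith
      have jm : round (t / ε) ∈ Finset.Icc (-(N : ℤ)) N := by
        have a1 := abs_le.1 r1
        have a2 := abs_lt.1 t2
        have b1 : ((-(N : ℤ) - 1 : ℤ) : ℝ) < round (t / ε) := by push_cast; linarith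
        have b2 : ((round (t / ε) : ℤ) : ℝ) < ((N : ℤ) + 1 : ℤ) := by push_cast; linarith
        have := Int.cast_lt.1 b1
        have := Int.cast_lt.1 b2
        exact Finset.mem_Icc.2 ⟨by omega, by omega⟩
      have g1 : 1 / 2 ≤ G (round (t / ε)) t := by
        refine le_max_of_le_right ?_
        have : |t - round (t / ε) * ε| / ε = |t / ε - round (t / ε)| := by
          rw [← abs_of_pos hε0, ← abs_div, abs_of_pos hε0]; congr 1; field_simp
        rw [this]; linarith
      exact (mul_self_le_mul_self (by norm_num) g1).trans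
        (Finset.single_le_sum (f := fun j => G j t * G j t) (fun j _ => mul_self_nonneg _) jm)
    have h1 := cfc_conj ha' (fun _ => 1 / 2) (fun t => ∑ j ∈ Finset.Icc (-(N : ℤ)) N, G j t * G j t)
      continuous_const (continuous_finsetSum _ fun j _ => (Gc j).mul (Gc j)) cov y
    have e1 : cfc (fun t => ∑ j ∈ Finset.Icc (-(N : ℤ)) N, G j t * G j t) a
        = ∑ j ∈ Finset.Icc (-(N : ℤ)) N, cfc (G j) a * cfc (G j) a := by
      have := cfc_sum (fun j t => G j t * G j t) a (Finset.Icc (-(N : ℤ)) N)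
        (fun j _ => ((Gc j).mul (Gc j)).continuousOn)
      rw [← Finset.sum_congr rfl fun j _ => cfc_mul (G j) (G j) a (Gc j).continuousOn
        (Gc j).continuousOn, ← this]
      congr 1; ext t; simp
    have h2 := CStarAlgebra.norm_le_norm_of_nonneg_of_le (star_mul_self_nonneg _) h1
    rw [nsq, e1, cfc_const _ a, Algebra.algebraMap_eq_smul_one, smul_mul_assoc, one_mul, norm_smul,
      Finset.mul_sum, Finset.sum_mul] at h2
    have h3 : ∀ j ∈ Finset.Icc (-(N : ℤ)) N,
        ‖star y * (cfc (G j) a * cfc (G j) a) * y‖ ≤ (C * ε) ^ 2 := by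
      intro j _
      have sG : star (cfc (G j) a) = cfc (G j) a :=
        (cfc_predicate (G j) a : IsSelfAdjoint _).star_eq
      have : star y * (cfc (G j) a * cfc (G j) a) * y
          = star (cfc (G j) a * y) * (cfc (G j) a * y) := by
        rw [star_mul, sG]; noncomm_ring
      rw [this, nsq]
      exact pow_le_pow_left₀ (norm_nonneg _) (bump _ _ hε0) 2
    have h4 := h2.trans ((norm_sum_le _ _).trans (Finset.sum_le_card_nsmul _ _ _ h3))
    have h5 : ((Finset.Icc (-(N : ℤ)) N).card : ℝ) = 2 * N + 1 := by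
      have : (Finset.Icc (-(N : ℤ)) N).card = 2 * N + 1 := by simp; omega
      rw [this]; push_cast; ring
    rw [nsmul_eq_mul, h5, Real.norm_of_nonneg (by norm_num)] at h4
    have h6 : 12 * (C * (‖a‖ + 1)) ^ 2 / N = 4 * (3 * N * (C * ε) ^ 2) := by
      rw [hε]; field_simp; ring
    rw [h6]
    nlinarith [sq_nonneg (C * ε)]
  have h7 : ‖y‖ ^ 2 ≤ 0 := ge_of_tendsto (tendsto_const_div_atTop_nhds_zero_nat _)
    (Filter.eventually_atTop.2 ⟨1, fun N hN => est N hN⟩)
  exact norm_eq_zero.1 (pow_eq_zero_iff two_ne_zero |>.1 (le_antisymm h7 (sq_nonneg _)))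

variable (S : LimSys R Lim) (hm : ∀ a ∈ R, ∀ b ∈ R, a * b ∈ R) (hs : ∀ a ∈ R, star a ∈ R)
  (hz : ∀ h ∈ R, star h = h → ∀ x ∈ R, h * x = x * h)

include S hs hz

lemma lim_skew {v : α → B} {y : B} {C : ℝ} (h : Lim v y) (hC : ∀ i, ‖v i‖ ≤ C)
    (hv : ∀ i, star (v i) = -v i) : star y = -y := by
  have hy := (S.mem h).1
  have hw : y + star y ∈ R := R.add_mem hy (hs _ hy)
  have sw : star (y + star y) = y + star y := by rw [star_add, star_star, add_comm]
  have h1 := S.orth0 h hC hw (fun i => by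
    rw [hv, sw, hz _ hw sw _ ((S.mem h).2 i), neg_mul, neg_add_cancel]) one_pos (by
    rw [one_smul, sw, hz _ hw sw _ hy, ← add_mul (star y), add_comm (star y)])
  exact eq_neg_of_add_eq_zero_right h1

lemma lim_sa {v : α → B} {y : B} {C : ℝ} (h : Lim v y) (hC : ∀ i, ‖v i‖ ≤ C)
    (hv : ∀ i, star (v i) = v i) : star y = y := by
  have hy := (S.mem h).1
  have hw : y - star y ∈ R := R.sub_mem hy (hs _ hy)
  have sw : star (y - star y) = -(y - star y) := by rw [star_sub, star_star, neg_sub]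
  have hp : y + star y ∈ R := R.add_mem hy (hs _ hy)
  have sp : star (y + star y) = y + star y := by rw [star_add, star_star, add_comm]
  have h1 := S.orth0 h hC hw (fun i => by
    rw [hv, sw, hz _ ((S.mem h).2 i) (hv i) _ hw, neg_mul, add_neg_cancel]) one_pos (by
    have h2 := hz _ hp sp _ hy
    have h3 : star y * y = y * star y := by
      rw [add_mul, mul_add] at h2
      exact add_left_cancel h2
    rw [one_smul, sw]
    refine le_of_eq ?_
    have h4 : star y * (y - star y) + -(y - star y) * y - -(y - star y) * (y - star y)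
        = star y * y - y * star y := by noncomm_ring
    rw [h3, sub_self] at h4
    exact (sub_eq_zero.1 h4).symm)
  exact (sub_eq_zero.1 h1).symm

lemma lim_star {u : α → B} {C : ℝ} (h : Lim u 0) (hC : ∀ i, ‖u i‖ ≤ C) :
    Lim (fun i => star (u i)) 0 := by
  obtain ⟨z, hz'⟩ := S.ex (u := fun i => star (u i)) (C := C) (fun i => hs _ ((S.mem h).2 i))
    (fun i => by rw [norm_star]; exact hC i)
  have h1 := S.lim_sa hs hz (C := C + C) (S.add h hz')
    (fun i => (norm_add_le _ _).trans (add_le_add (hC i) (by rw [norm_star]; exact hC i)))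
    (fun i => by rw [star_add, star_star, add_comm])
  have h2 := S.lim_skew hs hz (C := C + C) (S.add h (S.smul (-1) hz'))
    (fun i => (norm_add_le _ _).trans (add_le_add (hC i) (by
      rw [neg_one_smul, norm_neg, norm_star]; exact hC i)))
    (fun i => by simp)
  rw [zero_add] at h1
  rw [zero_add, neg_one_smul, star_neg, neg_neg, h1] at h2
  have h3 : (2 : ℝ) • z = 0 := by rw [two_smul]; exact neg_eq_iff_add_eq_zero.1 h2
  have h4 : z = 0 := (smul_eq_zero.1 h3).resolve_left two_ne_zero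
  exact h4 ▸ hz'

include hm

lemma lim_kh {k : B} (hkR : k ∈ R) (hk : star k = -k) {u : α → B} {C : ℝ} (h : Lim u 0)
    (hC : ∀ i, ‖u i‖ ≤ C) (hu : ∀ i, star (u i) = u i) : Lim (fun i => k * u i) 0 := by
  have bd : ∀ i, ‖k * u i‖ ≤ ‖k‖ * C := fun i =>
    (norm_mul_le _ _).trans (mul_le_mul_of_nonneg_left (hC i) (norm_nonneg _))
  have uR := (S.mem h).2
  obtain ⟨y, hy⟩ := S.ex (fun i => hm _ hkR _ (uR i)) bd
  suffices y = 0 from this ▸ hy
  have yR := (S.mem hy).1
  have sy := S.lim_skew hs hz hy bd fun i => by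
    rw [star_mul, hu, hk, mul_neg, hz _ (uR i) (hu i) _ hkR]
  have hv := S.add h hy
  rw [zero_add] at hv
  refine S.twist hm hv (C := C + ‖k‖ * C)
    (fun i => (norm_add_le _ _).trans (add_le_add (hC i) (bd i))) hkR hk fun i => ?_
  have c1 := hz _ (uR i) (hu i) _ hkR
  have c2 := hz _ (uR i) (hu i) _ yR
  have c3 := hz _ (hm _ hkR _ hkR) (by rw [star_mul, hk, neg_mul_neg]) _ yR
  have e1 : star (u i + k * u i) * (y + k * y) = u i * (y - k * k * y) := by
    simp only [star_add, star_mul, hu, hk]; noncomm_ring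
  have e2 : star (y + k * y) * (u i + k * u i) = -((y - y * (k * k)) * u i) := by
    simp only [star_add, star_mul, sy, hk]; noncomm_ring
  rw [e1, e2, ← c3, hz _ (uR i) (hu i) _ (R.sub_mem yR (hm _ (hm _ hkR _ hkR) _ yR)),
    add_neg_cancel]

lemma lim_ks {k : B} (hkR : k ∈ R) (hk : star k = -k) {u : α → B} {C : ℝ} (h : Lim u 0)
    (hC : ∀ i, ‖u i‖ ≤ C) (hu : ∀ i, star (u i) = -u i) :
    Lim (fun i => k * u i + u i * k) 0 := by
  have bd : ∀ i, ‖k * u i + u i * k‖ ≤ ‖k‖ * C + C * ‖k‖ := fun i =>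
    (norm_add_le _ _).trans (add_le_add
      ((norm_mul_le _ _).trans (mul_le_mul_of_nonneg_left (hC i) (norm_nonneg _)))
      ((norm_mul_le _ _).trans (mul_le_mul_of_nonneg_right (hC i) (norm_nonneg _))))
  have uR := (S.mem h).2
  have gR : ∀ i, k * u i + u i * k ∈ R := fun i => R.add_mem (hm _ hkR _ (uR i)) (hm _ (uR i) _ hkR)
  have sg : ∀ i, star (k * u i + u i * k) = k * u i + u i * k := fun i => by
    rw [star_add, star_mul, star_mul, hu, hk, neg_mul_neg, neg_mul_neg, add_comm]
  obtain ⟨y, hy⟩ := S.ex gR bd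
  suffices y = 0 from this ▸ hy
  have yR := (S.mem hy).1
  have sy := S.lim_sa hs hz hy bd sg
  have hv := S.add h hy
  rw [zero_add] at hv
  refine S.twist hm hv (k := k + k) (C := C + (‖k‖ * C + C * ‖k‖))
    (fun i => (norm_add_le _ _).trans (add_le_add (hC i) (bd i))) (R.add_mem hkR hkR)
    (by rw [star_add, hk, neg_add]) fun i => ?_
  have c1 := hz _ (gR i) (sg i) _ hkR
  set g := k * u i + u i * k with hg
  have e1 : star (u i + g) * (y + (k + k) * y) = ((g - u i) + (g - u i) * (k + k)) * y := by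
    have sgi : star g = g := sg i
    rw [star_add, sgi, hu]; noncomm_ring
  have e2 : star (y + (k + k) * y) * (u i + g) = y * ((u i + g) - (k + k) * (u i + g)) := by
    simp only [star_add, star_mul, sy, hk]; noncomm_ring
  have m1 : (u i + g) - (k + k) * (u i + g) ∈ R :=
    R.sub_mem (R.add_mem (uR i) (gR i)) (hm _ (R.add_mem hkR hkR) _ (R.add_mem (uR i) (gR i)))
  rw [e1, e2, hz _ yR sy _ m1, ← add_mul]
  have e3 : g - u i + (g - u i) * (k + k) + (u i + g - (k + k) * (u i + g))
      = (g * k - k * g) + (g * k - k * g) + (g - (k * u i + u i * k)) + (g - (k * u i + u i * k)) := by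
    noncomm_ring
  rw [e3, c1, ← hg]; simp

lemma lim_T {k : B} (hkR : k ∈ R) (hk : star k = -k) {u : α → B} {C : ℝ} (h : Lim u 0)
    (hC : ∀ i, ‖u i‖ ≤ C) : Lim (fun i => k * u i + u i * k) 0 := by
  have h0 := S.lim_star hs hz h hC
  have uR := (S.mem h).2
  have h1 := S.add h h0
  have h2 := S.add h (S.smul (-1) h0)
  rw [add_zero] at h1
  rw [smul_zero, add_zero] at h2
  have sp : ∀ i, star (u i + star (u i)) = u i + star (u i) := fun i => by
    rw [star_add, star_star, add_comm]
  have h3 := S.lim_kh hm hs hz hkR hk (C := C + C) h1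
    (fun i => (norm_add_le _ _).trans (add_le_add (hC i) (by rw [norm_star]; exact hC i))) sp
  have h4 := S.lim_ks hm hs hz hkR hk (C := C + C) h2
    (fun i => (norm_add_le _ _).trans (add_le_add (hC i) (by
      rw [neg_one_smul, norm_neg, norm_star]; exact hC i))) (fun i => by simp)
  have h5 := S.add h3 (S.smul (1 / 2) h4)
  rw [smul_zero, add_zero] at h5
  convert h5 using 2 with i
  have c1 := hz _ (R.add_mem (uR i) (hs _ (uR i))) (sp i) _ hkR
  simp only [mul_add, add_mul, mul_smul_comm, smul_mul_assoc] at c1 ⊢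
  have c2 : star (u i) * k = k * u i + k * star (u i) - u i * k := by rw [← c1]; abel
  rw [c2]; module

end LimSys

/-- A nonzero operator with vanishing numerical radius that respects all limit systems. -/
lemma exists_op (hcl : IsClosed (R : Set B)) (hm : ∀ a ∈ R, ∀ b ∈ R, a * b ∈ R)
    (hs : ∀ a ∈ R, star a ∈ R) (hne : ∃ a ∈ R, star a ≠ a) :
    ∃ G : B →L[ℝ] B, (∀ x ∈ R, G x ∈ R) ∧ (∃ x ∈ R, G x ≠ 0) ∧
      (∃ C : ℝ, 0 ≤ C ∧ ∀ (t : ℝ) x, |t| ≤ 1 → ‖x + t • G x‖ ≤ (1 + C * t ^ 2) * ‖x‖) ∧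
      ∀ Lim : (α → B) → B → Prop, LimSys R Lim → ∀ u, (∀ i, ‖u i‖ ≤ 1) → Lim u 0 →
        Lim (fun i => G (u i)) 0 := by
  have kk : ∀ k : B, star k = -k → k ≠ 0 → k * k ≠ 0 := fun k hk h0 h1 => by
    have := nsq k
    rw [hk, neg_mul, h1, neg_zero, norm_zero] at this
    exact h0 (norm_eq_zero.1 (pow_eq_zero_iff two_ne_zero |>.1 this.symm))
  have L : ∀ k : B, star k = -k → ∀ (t : ℝ) x, ‖x + t • (k * x)‖ ≤ (1 + ‖k‖ ^ 2 * t ^ 2) * ‖x‖ := by
    intro k hk t x
    have := skew_le' (k := t • k) (by rw [star_smul, hk, star_trivial, smul_neg]) x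
    rwa [smul_mul_assoc, norm_smul, mul_pow, Real.norm_eq_abs, sq_abs, mul_comm (t ^ 2)] at this
  by_cases hc : ∀ a ∈ R, star a = a → ∀ b ∈ R, star b = b → a * b = b * a
  · have hz : ∀ h ∈ R, star h = h → ∀ x ∈ R, h * x = x * h := by
      intro h hR hh x hx
      have h1 := hc h hR hh _ (R.add_mem hx (hs _ hx)) (by rw [star_add, star_star, add_comm])
      have sR := R.sub_mem hx (hs _ hx)
      have h2 : h * (x - star x) = (x - star x) * h := central hh (hc h hR hh _
        (R.sub_mem (hm _ hR _ sR) (hm _ sR _ hR)) (by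
          simp only [star_sub, star_mul, star_star, hh]; noncomm_ring))
      have h3 : (2 : ℝ) • (h * x - x * h) = 0 := by
        rw [two_smul]
        have : h * x - x * h + (h * x - x * h) = (h * (x + star x) - (x + star x) * h)
          + (h * (x - star x) - (x - star x) * h) := by noncomm_ring
        rw [this, h1, h2]; simp
      exact sub_eq_zero.1 ((smul_eq_zero.1 h3).resolve_left two_ne_zero)
    obtain ⟨a, aR, ha⟩ := hne
    set k := a - star a with hkd
    have hkR : k ∈ R := R.sub_mem aR (hs _ aR)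
    have hk : star k = -k := by rw [hkd, star_sub, star_star, neg_sub]
    have hk0 : k ≠ 0 := sub_ne_zero.2 ha.symm
    refine ⟨ContinuousLinearMap.mul ℝ B k + (ContinuousLinearMap.mul ℝ B).flip k,
      fun x hx => R.add_mem (hm _ hkR _ hx) (hm _ hx _ hkR), ⟨k, hkR, fun h0 => ?_⟩,
      ⟨3 * ‖k‖ ^ 2 + ‖k‖ ^ 4, by positivity, fun t x ht => ?_⟩,
      fun Lim S u hu h => S.lim_T hm hs hz hkR hk h hu⟩
    · have h3 : (2 : ℝ) • (k * k) = 0 := by rw [two_smul]; exact h0
      exact kk k hk hk0 ((smul_eq_zero.1 h3).resolve_left two_ne_zero)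
    · have e : x + t • (k * x + x * k) = star (star (x + t • (k * x))
          + (-t) • (k * star (x + t • (k * x)))) - t ^ 2 • (k * x * k) := by
        simp only [star_add, star_smul, star_mul, star_star, star_trivial, hk, mul_neg, add_mul,
          smul_mul_assoc, neg_mul, star_neg, neg_neg, smul_neg]
        module
      have h1 := L k hk (-t) (star (x + t • (k * x)))
      have h2 := L k hk t x
      have h3 : ‖k * x * k‖ ≤ ‖k‖ * ‖x‖ * ‖k‖ := norm_mul₃_le
      show ‖x + t • (k * x + x * k)‖ ≤ _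
      rw [e]
      refine (norm_sub_le _ _).trans ?_
      rw [norm_star, norm_smul, Real.norm_of_nonneg (sq_nonneg t)]
      rw [norm_star, neg_sq] at h1
      have h4 := mul_le_mul_of_nonneg_left h2 (by positivity : 0 ≤ 1 + ‖k‖ ^ 2 * t ^ 2)
      have h5 := mul_le_mul_of_nonneg_left h3 (sq_nonneg t)
      have h6 : t ^ 2 ≤ 1 := by rw [← sq_abs]; exact pow_le_one₀ (abs_nonneg t) ht
      have h7 := mul_le_mul_of_nonneg_left h6 (by positivity : 0 ≤ ‖k‖ ^ 4 * t ^ 2 * ‖x‖)
      nlinarith
  · push Not at hc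
    obtain ⟨a, aR, ha, b, bR, hb, hab⟩ := hc
    set k := a * b - b * a with hkd
    have hkR : k ∈ R := R.sub_mem (hm _ aR _ bR) (hm _ bR _ aR)
    have hk : star k = -k := by rw [hkd, star_sub, star_mul, star_mul, ha, hb, neg_sub]
    refine ⟨ContinuousLinearMap.mul ℝ B k, fun x hx => hm _ hkR _ hx,
      ⟨k, hkR, kk k hk (sub_ne_zero.2 hab)⟩, ⟨‖k‖ ^ 2, by positivity, fun t x _ => L k hk t x⟩,
      fun Lim S u hu h => ?_⟩
    have bd : ∀ c : B, ∀ i, ‖c * u i‖ ≤ ‖c‖ := fun c i =>
      (norm_mul_le _ _).trans (mul_le_of_le_one_right (norm_nonneg _) (hu i))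
    have h1 := S.selfadj hcl hm aR ha (norm_nonneg b) (S.selfadj hcl hm bR hb zero_le_one h hu) (bd b)
    have h2 := S.selfadj hcl hm bR hb (norm_nonneg a) (S.selfadj hcl hm aR ha zero_le_one h hu) (bd a)
    have h3 := S.add h1 (S.smul (-1) h2)
    rw [smul_zero, add_zero] at h3
    convert h3 using 2 with i
    simp only [hkd, ContinuousLinearMap.mul_apply', sub_mul, mul_assoc]
    module

end Pool.Agent.H.MP_64e6b8_an
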